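import Pool.Agent.helper67.TSC.All
import Pool.Agent.helper82.OG.All

/-!
# MP_ebc808_nt: golden ratio exponent for both parities at the same `x`

From the theorems TwoScales (`TSC.all_FIN`) and OddGoldenRatio (`OG.all_RES`). The numbers of even and odd values up to `x` add up to
`x + 1`, so if at most one of them is at least `x^b` for all `x` in an interval then it is the same one for all `x`.
-/

set_option autoImplicit false

open Finset

noncomputable section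

namespace Pool.Agent.GB

/-- the number of `n ≤ x` with `p(n) = e` modulo 2 -/
def NN (e x : ℕ) : ℕ := #{n ∈ range (x + 1) | Fintype.card (Nat.Partition n) % 2 = e}

theorem NN_add (x : ℕ) : NN 0 x + NN 1 x = x + 1 := by
  unfold NN
  have h := Finset.card_filter_add_card_filter_not (s := range (x + 1))
    (p := fun n => Fintype.card (Nat.Partition n) % 2 = 0)
  rw [card_range] at h
  have h2 : {n ∈ range (x + 1) | ¬ Fintype.card (Nat.Partition n) % 2 = 0} =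
      {n ∈ range (x + 1) | Fintype.card (Nat.Partition n) % 2 = 1} := by
    apply Finset.filter_congr
    intro n _
    omega
  rw [h2] at h
  exact h

theorem NN_mono (e x : ℕ) : NN e x ≤ NN e (x + 1) := by
  unfold NN
  apply Finset.card_le_card
  apply Finset.filter_subset_filter
  intro n hn
  rw [mem_range] at hn ⊢
  omega

theorem NN_succ (e x : ℕ) : NN e (x + 1) ≤ NN e x + 1 := by
  unfold NN
  rw [Finset.range_add_one (n := x + 1), Finset.filter_insert]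
  split_ifs with h
  · exact Finset.card_insert_le _ _
  · omega

/-- large `x`: `x^b` is small against `x` -/
theorem small (b : ℝ) (hb : b < 1) : ∃ x₀ : ℕ, ∀ x : ℕ, x₀ ≤ x →
    2 * ((x : ℝ) + 1) ^ b + 1 < (x : ℝ) + 1 := by
  have h1 : Filter.Tendsto (fun y : ℝ => y ^ (-(1 - b))) Filter.atTop (nhds 0) :=
    tendsto_rpow_neg_atTop (by linarith)
  have h2 := h1.eventually (gt_mem_nhds (show (0 : ℝ) < 1 / 4 by norm_num))
  obtain ⟨y₀, hy₀⟩ := Filter.eventually_atTop.1 h2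
  refine ⟨max ⌈y₀⌉₊ 4, fun x hx => ?_⟩
  have hx1 : y₀ ≤ (x : ℝ) := (Nat.le_ceil y₀).trans (by exact_mod_cast (le_max_left _ _).trans hx)
  have hx4 : (4 : ℝ) ≤ x := by exact_mod_cast (le_max_right _ _).trans hx
  have h3 := hy₀ ((x : ℝ) + 1) (by linarith)
  have hpos : (0 : ℝ) < (x : ℝ) + 1 := by linarith
  have h4 : ((x : ℝ) + 1) ^ b = ((x : ℝ) + 1) ^ (-(1 - b)) * ((x : ℝ) + 1) := by
    rw [← Real.rpow_add_one hpos.ne']
    congr 1
    ring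
  rw [h4]
  nlinarith

/-- large `X`: `2 (log X)^C < X^ε` -/
theorem lgs (C : ℕ) (ε : ℝ) (hε : 0 < ε) : ∃ X₀ : ℕ, ∀ X : ℕ, X₀ ≤ X →
    2 * Real.log X ^ C < (X : ℝ) ^ ε := by
  have h1 : (fun x : ℝ => Real.log x ^ (C : ℝ)) =o[Filter.atTop] fun x => x ^ ε :=
    isLittleO_log_rpow_rpow_atTop (C : ℝ) hε
  have h2 := h1.bound (show (0 : ℝ) < 1 / 4 by norm_num)
  obtain ⟨y₀, hy₀⟩ := Filter.eventually_atTop.1 h2
  refine ⟨max ⌈y₀⌉₊ 1, fun X hX => ?_⟩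
  have hX1 : y₀ ≤ (X : ℝ) := (Nat.le_ceil y₀).trans (by exact_mod_cast (le_max_left _ _).trans hX)
  have hX0 : (1 : ℝ) ≤ X := by exact_mod_cast (le_max_right _ _).trans hX
  have h3 := hy₀ (X : ℝ) hX1
  rw [Real.norm_eq_abs, Real.norm_eq_abs, Real.rpow_natCast] at h3
  have hl : 0 ≤ Real.log X := Real.log_nonneg hX0
  rw [abs_of_nonneg (pow_nonneg hl C), abs_of_nonneg (Real.rpow_nonneg (by linarith) _)] at h3
  have hp : 0 < (X : ℝ) ^ ε := Real.rpow_pos_of_pos (by linarith) _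
  linarith

/-- spreading: if the even values are few at one point of the interval they are few everywhere -/
theorem spread (b : ℝ) (hb0 : 0 ≤ b) (X : ℕ) (Y : ℝ)
    (hs : ∀ x : ℕ, Y ≤ (x : ℝ) → 2 * ((x : ℝ) + 1) ^ b + 1 < (x : ℝ) + 1)
    (H : ∀ x : ℕ, Y ≤ (x : ℝ) → x ≤ X → (x : ℝ) ^ b ≤ (NN 0 x : ℝ) → (NN 1 x : ℝ) < (x : ℝ) ^ b)
    (x₁ : ℕ) (hx₁ : Y ≤ (x₁ : ℝ)) (hX1 : x₁ ≤ X) (h₁ : (NN 0 x₁ : ℝ) < (x₁ : ℝ) ^ b) :
    ∀ x : ℕ, Y ≤ (x : ℝ) → x ≤ X → (NN 0 x : ℝ) < (x : ℝ) ^ b := by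
  have hadd : ∀ x : ℕ, (NN 0 x : ℝ) + NN 1 x = x + 1 := fun x => by exact_mod_cast NN_add x
  have up : ∀ d : ℕ, x₁ + d ≤ X → (NN 0 (x₁ + d) : ℝ) < ((x₁ + d : ℕ) : ℝ) ^ b := by
    intro d
    induction d with
    | zero => intro _; exact h₁
    | succ d ih =>
      intro hd
      have ih' := ih (by omega)
      set y := x₁ + d with hy
      have hyY : Y ≤ (y : ℝ) := hx₁.trans (by exact_mod_cast (by omega : x₁ ≤ y))
      have e1 : x₁ + (d + 1) = y + 1 := by omega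
      rw [e1]
      by_contra hc
      rw [not_lt] at hc
      have h2 := H (y + 1) (by push_cast; linarith) (by omega) hc
      have h3 := hadd (y + 1)
      have h4 : (NN 0 (y + 1) : ℝ) ≤ NN 0 y + 1 := by exact_mod_cast NN_succ 0 y
      have h5 : (y : ℝ) ^ b ≤ ((y : ℝ) + 1) ^ b :=
        Real.rpow_le_rpow (by positivity) (by linarith) hb0
      have h6 := hs y hyY
      push_cast at h2 h3
      linarith
  have down : ∀ d : ℕ, d ≤ x₁ → x₁ ≤ X → Y ≤ ((x₁ - d : ℕ) : ℝ) →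
      (NN 0 (x₁ - d) : ℝ) < ((x₁ - d : ℕ) : ℝ) ^ b := by
    intro d
    induction d with
    | zero => intro _ _ _; exact h₁
    | succ d ih =>
      intro hd hX hYd
      set y := x₁ - (d + 1) with hy
      have e1 : x₁ - d = y + 1 := by omega
      rw [e1] at ih
      have ih' := ih (by omega) hX (by push_cast; linarith)
      by_contra hc
      rw [not_lt] at hc
      have h2 := H y hYd (by omega) hc
      have h3 := hadd y
      have h4 : (NN 0 y : ℝ) ≤ NN 0 (y + 1) := by exact_mod_cast NN_mono 0 y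
      have h5 : (y : ℝ) ^ b ≤ ((y : ℝ) + 1) ^ b :=
        Real.rpow_le_rpow (by positivity) (by linarith) hb0
      have h6 := hs y hYd
      push_cast at ih'
      linarith
  intro x hx hxX
  rcases le_total x₁ x with h | h
  · obtain ⟨d, rfl⟩ := Nat.exists_eq_add_of_le h
    exact up d hxX
  · have e1 : x₁ - (x₁ - x) = x := by omega
    have := down (x₁ - x) (by omega) hX1 (by rw [e1]; exact hx)
    rw [e1] at this
    exact this

/-- the golden ratio exponent for both parities at the same `x`, `ε ≤ 1/4` -/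
theorem core (ε : ℝ) (hε : 0 < ε) (hε4 : ε ≤ 1 / 4) : ∃ X₀ : ℕ, ∀ X : ℕ, X₀ ≤ X →
    ∃ x : ℕ, (X : ℝ) ^ (1 / 10 : ℝ) ≤ x ∧ x ≤ X ∧
      (x : ℝ) ^ ((1 + √5) / 4 - ε) ≤ (NN 0 x : ℝ) ∧ (x : ℝ) ^ ((1 + √5) / 4 - ε) ≤ (NN 1 x : ℝ) := by
  obtain ⟨C, X₁, hTS⟩ := Pool.Agent.TSC.all_FIN
  obtain ⟨X₂, hOG⟩ := Pool.Agent.OG.all_RES ε hε
  have h5 : √5 * √5 = 5 := Real.mul_self_sqrt (by norm_num)
  have h5a : (2 : ℝ) < √5 := by
    rw [Real.lt_sqrt (by norm_num)]; norm_num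
  have h5b : √5 < (9 / 4 : ℝ) := by
    rw [Real.sqrt_lt' (by norm_num)]; norm_num
  set b : ℝ := (1 + √5) / 4 - ε with hb
  set θ : ℝ := (√5 - 1) / 2 with hθ
  have hb0 : 0 ≤ b := by rw [hb]; linarith
  have hb1 : b < 1 := by rw [hb]; linarith
  have hθ0 : (1 / 2 : ℝ) < θ := by rw [hθ]; linarith
  have hθ1 : θ < 5 / 8 := by rw [hθ]; linarith
  have hθb : θ * b ≤ 1 / 2 := by
    have e : θ * b = 1 / 2 - ε * θ := by rw [hθ, hb]; nlinarith
    rw [e]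
    nlinarith
  obtain ⟨x₀, hx₀⟩ := small b hb1
  obtain ⟨X₃, hX₃⟩ := lgs C ε hε
  refine ⟨max (max X₁ X₂) (max X₃ ((x₀ + 2) ^ 10)), fun X hX => ?_⟩
  have hXX₁ : X₁ ≤ X := (le_max_left _ _).trans ((le_max_left _ _).trans hX)
  have hXX₂ : X₂ ≤ X := (le_max_right _ _).trans ((le_max_left _ _).trans hX)
  have hXX₃ : X₃ ≤ X := (le_max_left _ _).trans ((le_max_right _ _).trans hX)
  have hXX₄ : (x₀ + 2) ^ 10 ≤ X := (le_max_right _ _).trans ((le_max_right _ _).trans hX)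
  have hXge : (1024 : ℕ) ≤ X := by
    calc 1024 = 2 ^ 10 := by norm_num
      _ ≤ (x₀ + 2) ^ 10 := Nat.pow_le_pow_left (by omega) 10
      _ ≤ X := hXX₄
  have hX1 : (1 : ℝ) ≤ X := by exact_mod_cast (by omega : 1 ≤ X)
  have hX0 : (0 : ℝ) < X := by linarith
  have hYx : ((x₀ : ℝ) + 2) ≤ (X : ℝ) ^ (1 / 10 : ℝ) := by
    have h1 : (((x₀ : ℝ) + 2) ^ (10 : ℕ)) ≤ X := by exact_mod_cast hXX₄
    have h2 : ((x₀ : ℝ) + 2) = (((x₀ : ℝ) + 2) ^ (10 : ℕ)) ^ (1 / 10 : ℝ) := by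
      rw [← Real.rpow_natCast, ← Real.rpow_mul (by positivity)]
      norm_num
    rw [h2]
    exact Real.rpow_le_rpow (by positivity) h1 (by norm_num)
  by_contra hcon
  push Not at hcon
  have hs : ∀ x : ℕ, (X : ℝ) ^ (1 / 10 : ℝ) ≤ (x : ℝ) → 2 * ((x : ℝ) + 1) ^ b + 1 < (x : ℝ) + 1 := by
    intro x hx
    apply hx₀
    have : (x₀ : ℝ) + 2 ≤ x := hYx.trans hx
    have h' : x₀ + 2 ≤ x := by exact_mod_cast this
    omega
  obtain ⟨x₁, hx₁, hx₁X, hx₁o'⟩ := hOG X hXX₂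
  have hx₁o : (x₁ : ℝ) ^ b ≤
      (#{n ∈ range (x₁ + 1) | Odd (Fintype.card (Nat.Partition n))} : ℝ) := hx₁o'
  have hodd : (#{n ∈ range (x₁ + 1) | Odd (Fintype.card (Nat.Partition n))} : ℝ) = NN 1 x₁ := by
    unfold NN
    congr 2
    apply Finset.filter_congr
    intro n _
    exact Nat.odd_iff
  rw [hodd] at hx₁o
  have h₁ : (NN 0 x₁ : ℝ) < (x₁ : ℝ) ^ b := by
    by_contra hc
    rw [not_lt] at hc
    exact absurd hx₁o (not_le.2 (hcon x₁ hx₁ hx₁X hc))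
  have hall := spread b hb0 X ((X : ℝ) ^ (1 / 10 : ℝ)) hs
    (fun x hx hxX h => hcon x hx hxX h) x₁ hx₁ hx₁X h₁
  -- the two scales
  set Z : ℕ := ⌊(X : ℝ) ^ θ⌋₊ with hZ
  have hXθ : (1 : ℝ) ≤ (X : ℝ) ^ θ := Real.one_le_rpow hX1 (by linarith)
  have hZ1 : (Z : ℝ) ≤ (X : ℝ) ^ θ := Nat.floor_le (by positivity)
  have hZ2 : (X : ℝ) ^ θ < (Z : ℝ) + 1 := Nat.lt_floor_add_one _
  have hZ3 : 1 ≤ Z := Nat.le_floor (by exact_mod_cast hXθ)
  have hZ4 : (X : ℝ) ^ θ / 2 ≤ Z := by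
    have : (1 : ℝ) ≤ Z := by exact_mod_cast hZ3
    linarith
  have hZX : Z ≤ X := by
    have h1 : (X : ℝ) ^ θ ≤ (X : ℝ) ^ (1 : ℝ) := Real.rpow_le_rpow_of_exponent_le hX1 (by linarith)
    rw [Real.rpow_one] at h1
    exact_mod_cast hZ1.trans h1
  have hZY : (X : ℝ) ^ (1 / 10 : ℝ) ≤ (Z : ℝ) := by
    have h1 : (X : ℝ) ^ (1 / 10 : ℝ) * 2 ≤ (X : ℝ) ^ θ := by
      have h2 : (2 : ℝ) ≤ (X : ℝ) ^ (1 / 10 : ℝ) := by
        have : (0 : ℝ) ≤ x₀ := by positivity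
        linarith
      have h3 : (X : ℝ) ^ (1 / 10 : ℝ) * (X : ℝ) ^ (1 / 10 : ℝ) ≤ (X : ℝ) ^ θ := by
        rw [← Real.rpow_add hX0]
        exact Real.rpow_le_rpow_of_exponent_le hX1 (by linarith)
      have h4 : (0 : ℝ) ≤ (X : ℝ) ^ (1 / 10 : ℝ) := by positivity
      nlinarith
    linarith
  have hNX := hall X (by
    have h1 : (X : ℝ) ^ (1 / 10 : ℝ) ≤ (X : ℝ) ^ (1 : ℝ) :=
      Real.rpow_le_rpow_of_exponent_le hX1 (by norm_num)
    rwa [Real.rpow_one] at h1) le_rfl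
  have hNZ := hall Z hZY hZX
  have hmain : (X : ℝ) * √(Z : ℝ) ≤
      Real.log X ^ C * ((NN 0 X : ℝ) * max (NN 0 Z : ℝ) (√(X : ℝ))) :=
    hTS X Z 0 0 hXX₁ hZX (by norm_num) (by norm_num) (by norm_num)
  have hsq : √(X : ℝ) = (X : ℝ) ^ (1 / 2 : ℝ) := Real.sqrt_eq_rpow _
  have hZb : (Z : ℝ) ^ b ≤ √(X : ℝ) := by
    rw [hsq]
    calc (Z : ℝ) ^ b ≤ ((X : ℝ) ^ θ) ^ b := Real.rpow_le_rpow (by positivity) hZ1 hb0
      _ = (X : ℝ) ^ (θ * b) := by rw [← Real.rpow_mul hX0.le]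
      _ ≤ (X : ℝ) ^ (1 / 2 : ℝ) := Real.rpow_le_rpow_of_exponent_le hX1 hθb
  have hmax : max (NN 0 Z : ℝ) (√(X : ℝ)) = √(X : ℝ) := max_eq_right (hNZ.le.trans hZb)
  rw [hmax] at hmain
  have hlog : 0 ≤ Real.log X ^ C := pow_nonneg (Real.log_nonneg hX1) C
  have hR : Real.log X ^ C * ((NN 0 X : ℝ) * √(X : ℝ)) ≤
      Real.log X ^ C * ((X : ℝ) ^ b * (X : ℝ) ^ (1 / 2 : ℝ)) := by
    rw [hsq]
    apply mul_le_mul_of_nonneg_left _ hlog
    exact mul_le_mul_of_nonneg_right hNX.le (by positivity)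
  have hL : (X : ℝ) ^ (1 + θ / 2) / 2 ≤ X * √(Z : ℝ) := by
    have h1 : (X : ℝ) ^ (θ / 2) / 2 ≤ √(Z : ℝ) := by
      apply Real.le_sqrt_of_sq_le
      have h2 : ((X : ℝ) ^ (θ / 2) / 2) ^ 2 = (X : ℝ) ^ θ / 4 := by
        have h3 : ((X : ℝ) ^ (θ / 2)) ^ 2 = (X : ℝ) ^ θ := by
          rw [← Real.rpow_natCast, ← Real.rpow_mul hX0.le]
          congr 1
          push_cast
          ring
        rw [div_pow, h3]
        norm_num
      rw [h2]
      have : 0 ≤ (X : ℝ) ^ θ := by positivity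
      linarith
    calc (X : ℝ) ^ (1 + θ / 2) / 2 = X * ((X : ℝ) ^ (θ / 2) / 2) := by
          rw [Real.rpow_add hX0, Real.rpow_one]; ring
      _ ≤ X * √(Z : ℝ) := mul_le_mul_of_nonneg_left h1 hX0.le
  have hexp : (X : ℝ) ^ b * (X : ℝ) ^ (1 / 2 : ℝ) * (X : ℝ) ^ ε = (X : ℝ) ^ (1 + θ / 2) := by
    rw [← Real.rpow_add hX0, ← Real.rpow_add hX0]
    congr 1
    rw [hb, hθ]
    ring
  have hA : 0 < (X : ℝ) ^ b * (X : ℝ) ^ (1 / 2 : ℝ) := by positivity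
  have hlg := hX₃ X hXX₃
  have hfin : (X : ℝ) ^ (1 + θ / 2) / 2 ≤
      Real.log X ^ C * ((X : ℝ) ^ b * (X : ℝ) ^ (1 / 2 : ℝ)) := hL.trans (hmain.trans hR)
  rw [← hexp] at hfin
  have : (X : ℝ) ^ ε ≤ 2 * Real.log X ^ C := by
    by_contra hc
    rw [not_le] at hc
    have := mul_lt_mul_of_pos_left hc hA
    linarith
  linarith

/-- the golden ratio exponent for both parities at the same `x` -/
theorem all_GB : ∀ ε : ℝ, 0 < ε → ∃ X₀ : ℕ, ∀ X : ℕ, X₀ ≤ X →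
    ∃ x : ℕ, (X : ℝ) ^ (1 / 10 : ℝ) ≤ x ∧ x ≤ X ∧ ∀ e : ℕ, e < 2 →
      (x : ℝ) ^ ((1 + √5) / 4 - ε) ≤
        (#{n ∈ range (x + 1) | Fintype.card (Nat.Partition n) % 2 = e} : ℝ) := by
  intro ε hε
  obtain ⟨X₀, h⟩ := core (min ε (1 / 4)) (lt_min hε (by norm_num)) (min_le_right _ _)
  refine ⟨max X₀ 1, fun X hX => ?_⟩
  obtain ⟨x, h1, h2, h3, h4⟩ := h X ((le_max_left _ _).trans hX)
  have hX1 : (1 : ℝ) ≤ X := by exact_mod_cast (le_max_right _ _).trans hX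
  have hx1 : (1 : ℝ) ≤ x := (Real.one_le_rpow hX1 (by norm_num)).trans h1
  have hle : (x : ℝ) ^ ((1 + √5) / 4 - ε) ≤ (x : ℝ) ^ ((1 + √5) / 4 - min ε (1 / 4)) :=
    Real.rpow_le_rpow_of_exponent_le hx1 (by linarith [min_le_left ε (1 / 4)])
  refine ⟨x, h1, h2, fun e he => ?_⟩
  rcases (show e = 0 ∨ e = 1 by omega) with rfl | rfl
  · exact hle.trans h3
  · exact hle.trans h4

end Pool.Agent.GB
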