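import Pool.Agent.helper70.GB.SpecK

/-!
# Project gb, module `T4`: elementary congruences of `V`
-/

open Matrix

namespace GB

universe u

section T4

variable {A : Type u} [CommRing A]

theorem T4_tr (i j : Fin 4) (c : A) (w w' : Fin 3 → A) (a b : Fin 4) :
    ((transvection i j c)ᵀ * V w w' * transvection i j c) a b =
      V w w' a b + (if a = j then c * V w w' i b else 0) + (if b = j then c * V w w' a i else 0) +
        (if a = j ∧ b = j then c * c * V w w' i i else 0) := by
  have h1 : ∀ (M : Matrix (Fin 4) (Fin 4) A) (a b : Fin 4), (M * transvection i j c) a b =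
      M a b + if b = j then c * M a i else 0 := by
    intro M a b
    rw [transvection, mul_add, mul_one, Matrix.add_apply]
    congr 1
    split_ifs with h
    · subst h
      rw [Matrix.mul_single_apply_same]
      ring
    · rw [Matrix.mul_single_apply_of_ne]
      exact h
  have h2 : ∀ (M : Matrix (Fin 4) (Fin 4) A) (a b : Fin 4), ((transvection i j c)ᵀ * M) a b =
      M a b + if a = j then c * M i b else 0 := by
    intro M a b
    have : (transvection i j c)ᵀ * M = (Mᵀ * transvection i j c)ᵀ := by
      rw [Matrix.transpose_mul, Matrix.transpose_transpose]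
    rw [this, Matrix.transpose_apply, h1]
    rfl
  rw [h1, h2, h2]
  by_cases ha : a = j <;> by_cases hb : b = j <;> simp [ha, hb]
  ring

theorem T4_step (w w' : Fin 3 → A) (hw : w ⬝ᵥ w' = 1) (i j : Fin 4) (hij : i ≠ j) (c : A) :
    ∃ x x' : Fin 3 → A, (transvection i j c)ᵀ * V w w' * transvection i j c = V x x' ∧
      x ⬝ᵥ x' = 1 ∧ EEq w x := by
  have h3 : 3 ≤ Fintype.card (Fin 3) := by simp
  have hw2 : w 0 * w' 0 + w 1 * w' 1 + w 2 * w' 2 = 1 := by
    rw [← hw, dotProduct, Fin.sum_univ_three]
  have key : ∀ x x' : Fin 3 → A, x 0 * x' 0 + x 1 * x' 1 + x 2 * x' 2 = 1 → EEq w x →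
      (∀ a b, V w w' a b + (if a = j then c * V w w' i b else 0) +
        (if b = j then c * V w w' a i else 0) +
        (if a = j ∧ b = j then c * c * V w w' i i else 0) = V x x' a b) →
      ∃ x x' : Fin 3 → A, (transvection i j c)ᵀ * V w w' * transvection i j c = V x x' ∧
      x ⬝ᵥ x' = 1 ∧ EEq w x := by
    intro x x' h1 h2 h4
    refine ⟨x, x', ?_, by rw [dotProduct, Fin.sum_univ_three, h1], h2⟩
    ext a b
    rw [T4_tr, h4]
  have cd : ∀ x : Fin 3 → A, x 0 * w' 0 + x 1 * w' 1 + x 2 * w' 2 = 1 → EEq w x := by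
    intro x hx
    exact EEq_of_common_dual h3 w x w' hw (by rw [dotProduct, Fin.sum_univ_three, hx])
  have up : ∀ (p q : Fin 3) (x : Fin 3 → A), p ≠ q →
      x = Function.update w q (w q + w p * c) → EEq w x := by
    rintro p q x hpq rfl
    exact EEq_update hpq w c
  fin_cases i <;> fin_cases j
  · exact absurd rfl hij
  · refine key w ![w' 0, w' 1 - c * w 2, w' 2 + c * w 1] ?_ (EEq.refl w) ?_
    · simp; linear_combination hw2
    · intro a b; fin_cases a <;> fin_cases b <;> simp [V] <;> ring
  · refine key w ![w' 0 + c * w 2, w' 1, w' 2 - c * w 0] ?_ (EEq.refl w) ?_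
    · simp; linear_combination hw2
    · intro a b; fin_cases a <;> fin_cases b <;> simp [V] <;> ring
  · refine key w ![w' 0 - c * w 1, w' 1 + c * w 0, w' 2] ?_ (EEq.refl w) ?_
    · simp; linear_combination hw2
    · intro a b; fin_cases a <;> fin_cases b <;> simp [V] <;> ring
  · refine key ![w 0, w 1 + c * w' 2, w 2 - c * w' 1] w' ?_ (cd _ ?_) ?_
    · simp; linear_combination hw2
    · simp; linear_combination hw2
    · intro a b; fin_cases a <;> fin_cases b <;> simp [V] <;> ring
  · exact absurd rfl hij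
  · refine key ![w 0, w 1 + w 0 * c, w 2] ![w' 0 - c * w' 1, w' 1, w' 2] ?_
      (up 0 1 _ (by decide) ?_) ?_
    · simp; linear_combination hw2
    · ext k; fin_cases k <;> simp [Function.update]
    · intro a b; fin_cases a <;> fin_cases b <;> simp [V] <;> ring
  · refine key ![w 0, w 1, w 2 + w 0 * c] ![w' 0 - c * w' 2, w' 1, w' 2] ?_
      (up 0 2 _ (by decide) ?_) ?_
    · simp; linear_combination hw2
    · ext k; fin_cases k <;> simp [Function.update]
    · intro a b; fin_cases a <;> fin_cases b <;> simp [V] <;> ring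
  · refine key ![w 0 - c * w' 2, w 1, w 2 + c * w' 0] w' ?_ (cd _ ?_) ?_
    · simp; linear_combination hw2
    · simp; linear_combination hw2
    · intro a b; fin_cases a <;> fin_cases b <;> simp [V] <;> ring
  · refine key ![w 0 + w 1 * c, w 1, w 2] ![w' 0, w' 1 - c * w' 0, w' 2] ?_
      (up 1 0 _ (by decide) ?_) ?_
    · simp; linear_combination hw2
    · ext k; fin_cases k <;> simp [Function.update]
    · intro a b; fin_cases a <;> fin_cases b <;> simp [V] <;> ring
  · exact absurd rfl hij
  · refine key ![w 0, w 1, w 2 + w 1 * c] ![w' 0, w' 1 - c * w' 2, w' 2] ?_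
      (up 1 2 _ (by decide) ?_) ?_
    · simp; linear_combination hw2
    · ext k; fin_cases k <;> simp [Function.update]
    · intro a b; fin_cases a <;> fin_cases b <;> simp [V] <;> ring
  · refine key ![w 0 + c * w' 1, w 1 - c * w' 0, w 2] w' ?_ (cd _ ?_) ?_
    · simp; linear_combination hw2
    · simp; linear_combination hw2
    · intro a b; fin_cases a <;> fin_cases b <;> simp [V] <;> ring
  · refine key ![w 0 + w 2 * c, w 1, w 2] ![w' 0, w' 1, w' 2 - c * w' 0] ?_
      (up 2 0 _ (by decide) ?_) ?_
    · simp; linear_combination hw2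
    · ext k; fin_cases k <;> simp [Function.update]
    · intro a b; fin_cases a <;> fin_cases b <;> simp [V] <;> ring
  · refine key ![w 0, w 1 + w 2 * c, w 2] ![w' 0, w' 1, w' 2 - c * w' 1] ?_
      (up 2 1 _ (by decide) ?_) ?_
    · simp; linear_combination hw2
    · ext k; fin_cases k <;> simp [Function.update]
    · intro a b; fin_cases a <;> fin_cases b <;> simp [V] <;> ring
  · exact absurd rfl hij

end T4

/-- module `T4` -/
theorem T4 : T4_stmt.{u} := by
  intro A _ w w' hw h hh
  refine E_induction (P := fun h => ∃ x x' : Fin 3 → A, hᵀ * V w w' * h = V x x' ∧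
    x ⬝ᵥ x' = 1 ∧ EEq w x) ?_ ?_ hh
  · exact ⟨w, w', by simp, hw, EEq.refl w⟩
  · rintro M i j c hij ⟨x, x', h1, h2, h3⟩
    obtain ⟨y, y', h4, h5, h6⟩ := T4_step x x' h2 i j hij c
    refine ⟨y, y', ?_, h5, h3.trans h6⟩
    rw [← h4, ← h1, Matrix.transpose_mul]
    simp only [Matrix.mul_assoc]

end GB
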